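import Pool.Agent.Q18.KZ.S3
import Pool.Agent.W76.MO.Asm2

/-!
# Project KZ (helper18), job CON (helper240): the partial sums
-/

set_option autoImplicit false

namespace Pool.Agent.Q240.KZ

open Finset Filter Topology MeasureTheory
open scoped Classical
open Pool.Agent.W76.MO (hh nc cell lp Rough)
open Q236.CM (LP)
open Pool.Agent.Q18.KZ

/-- conjunction of two eventual statements -/
lemma kz_and {E : KEnv} {P Q : ℝ → ℕ → (ℕ → Bool) → Prop} (h1 : KZAll E P) (h2 : KZAll E Q) :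
    KZAll E (fun η j V => P η j V ∧ Q η j V) := by
  obtain ⟨η₁, J₁, h1a, h1b⟩ := h1
  obtain ⟨η₂, J₂, h2a, h2b⟩ := h2
  refine ⟨min η₁ η₂, max J₁ J₂, lt_min h1a h2a, fun η j V h3 h4 h5 h6 => ?_⟩
  exact ⟨h1b η j V h3 (h4.trans (min_le_left _ _)) ((le_max_left _ _).trans h5) h6,
    h2b η j V h3 (h4.trans (min_le_right _ _)) ((le_max_right _ _).trans h5) h6⟩

lemma kz_mono {E : KEnv} {P Q : ℝ → ℕ → (ℕ → Bool) → Prop} (h1 : KZAll E P) (J : ℕ)
    (h : ∀ η j V, J ≤ j → P η j V → Q η j V) : KZAll E Q := by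
  obtain ⟨η₁, J₁, h1a, h1b⟩ := h1
  refine ⟨η₁, max J₁ J, h1a, fun η j V h3 h4 h5 h6 => ?_⟩
  exact h η j V ((le_max_right _ _).trans h5) (h1b η j V h3 h4 ((le_max_left _ _).trans h5) h6)

lemma ww_pos (δ : ℝ) {i : ℕ} (hi : 1 ≤ i) : 0 < ww δ i := by
  unfold ww
  have : (0 : ℝ) < i := by exact_mod_cast hi
  positivity

lemma ww_le (δ : ℝ) {i : ℕ} (hi : 1 ≤ i) : ww δ i ≤ (2 : ℝ) ^ (-(1 / 2 + δ / 2) * (i : ℝ)) := by
  unfold ww
  have h1 : (1 : ℝ) ≤ (i : ℝ) ^ 40 := one_le_pow₀ (by exact_mod_cast hi)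
  exact div_le_self (by positivity) h1

lemma al_pos (E : KEnv) : 0 < E.al := by
  unfold KEnv.al
  positivity

lemma al_le (E : KEnv) : E.al ≤ 1 := by
  unfold KEnv.al
  rw [div_le_one (by positivity)]
  have : (0 : ℝ) ≤ E.B0 := Nat.cast_nonneg _
  linarith

lemma WC_le (E : KEnv) {i : ℕ} (k : ℕ) (hi : 1 ≤ i) : 0 ≤ E.WC i k ∧ E.WC i k ≤ ww E.δ i := by
  have h1 := ww_pos E.δ hi
  have h2 := al_pos E
  have h3 := al_le E
  unfold KEnv.WC
  split_ifs
  · exact ⟨by positivity, by nlinarith⟩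
  · exact ⟨h1.le, le_refl _⟩

/-- partial sums -/
noncomputable def SS (f : ℕ → ℝ) (N : ℕ) : ℝ := ∑ n ∈ Icc 1 N, f n

lemma SS_add (f : ℕ → ℝ) {M N : ℕ} (h : M ≤ N) : SS f N = SS f M + ∑ n ∈ Ioc M N, f n := by
  unfold SS
  have h1 : Icc 1 N = Icc 1 M ∪ Ioc M N := by
    ext n
    simp only [mem_Icc, mem_union, mem_Ioc]
    omega
  rw [h1, sum_union]
  rw [disjoint_left]
  intro n hn hn'
  rw [mem_Icc] at hn
  rw [mem_Ioc] at hn'
  omega

/-- sums over the cells of one scale -/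
lemma SS_cells (f : ℕ → ℝ) (δ : ℝ) (i : ℕ) (x : ℝ) (h : ∀ k < nc δ i, ∑ n ∈ cell δ i k, f n = x) (k : ℕ) (hk : k ≤ nc δ i) :
    SS f (2 ^ i + k * hh δ i) = SS f (2 ^ i) + k * x := by
  induction k with
  | zero => simp
  | succ k ih =>
    have h1 := ih (by omega)
    rw [SS_add f (M := 2 ^ i + k * hh δ i) (by gcongr; omega), h1]
    have h2 := h k (by omega)
    unfold cell at h2
    rw [h2]
    push_cast
    ring

theorem t_CON (hNK : S_NK) (hTS : S_TS) (hDEC : S_DEC) (hLB : S_LB) : S_CON := by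
  intro E
  refine kz_mono (kz_and (kz_and (hNK E) (hTS E)) (kz_and (hDEC E) (hLB E))) 1 ?_
  rintro η j V hj1 ⟨⟨hnk, hts⟩, hdec, hlb⟩ z hz heq
  have hδ := E.hδ
  have hδ' := E.hδ'
  set f : ℕ → ℝ := E.ff V j z with hf
  -- first value
  have hf1 : f 1 = 1 := Q236.CM.LP_one _
  have hS1 : SS f (2 ^ j) = 1 + ∑ n ∈ Icc 2 (2 ^ j), f n := by
    unfold SS
    have h1 : Icc 1 (2 ^ j) = insert 1 (Icc 2 (2 ^ j)) := by
      ext n
      simp only [mem_Icc, mem_insert]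
      have : 0 < 2 ^ j := by positivity
      omega
    rw [h1, sum_insert (by simp), hf1]
  have hncpos : ∀ i, 0 < nc E.δ i := by
    intro i
    have h1 := Pool.Agent.W76.MO.nc_mul E.δ hδ i
    have h2 : 0 < 2 ^ i := by positivity
    rcases Nat.eq_zero_or_pos (nc E.δ i) with h3 | h3
    · rw [h3, zero_mul] at h1
      omega
    · exact h3
  -- end of the first block
  have hSj : SS f (2 ^ (j + 1)) = 0 := by
    have h1 := SS_cells f E.δ j (-(SS f (2 ^ j)) / nc E.δ j) (fun k hk => by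
      have h2 := heq j k le_rfl hk
      rw [if_pos rfl, ← hS1] at h2
      rw [neg_div]
      linarith) (nc E.δ j) le_rfl
    rw [Pool.Agent.W76.MO.nc_mul E.δ hδ j] at h1
    rw [pow_succ, mul_two, h1]
    have h3 : (0 : ℝ) < nc E.δ j := by exact_mod_cast hncpos j
    field_simp
    ring
  have hcell : ∀ i k : ℕ, j < i → k < nc E.δ i → ∑ n ∈ cell E.δ i k, f n = 0 := by
    intro i k hi hk
    have h2 := heq i k hi.le hk
    rw [if_neg (by omega), add_zero] at h2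
    exact h2
  have hblock : ∀ i : ℕ, j + 1 ≤ i → SS f (2 ^ i) = 0 := by
    intro i hi
    induction i, hi using Nat.le_induction with
    | base => exact hSj
    | succ i hi ih =>
      have h1 := SS_cells f E.δ i 0 (fun k hk => hcell i k (by omega) hk) (nc E.δ i) le_rfl
      rw [Pool.Agent.W76.MO.nc_mul E.δ hδ i, ih] at h1
      rw [pow_succ, mul_two, h1]
      simp
  -- large N
  have hlarge : ∀ N : ℕ, 2 ^ (j + 1) < N → |SS f N| ≤ 8 * (N : ℝ) ^ (-(1 / 2 : ℝ) - E.δ / 2) := by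
    intro N hN
    have h2j : 0 < 2 ^ (j + 1) := by positivity
    set i := Nat.log 2 (N - 1) with hi
    have h1 : 2 ^ i ≤ N - 1 := Nat.pow_log_le_self 2 (by omega)
    have h2 : N - 1 < 2 ^ (i + 1) := Nat.lt_pow_succ_log_self (by norm_num) (N - 1)
    have hji : j + 1 ≤ i := by
      by_contra hcon
      push Not at hcon
      have h3 : 2 ^ (i + 1) ≤ 2 ^ (j + 1) := Nat.pow_le_pow_right (by norm_num) (by omega)
      omega
    set k := (N - 1 - 2 ^ i) / hh E.δ i with hk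
    have hpos : 0 < hh E.δ i := by unfold hh; positivity
    have h3 : k * hh E.δ i ≤ N - 1 - 2 ^ i := Nat.div_mul_le_self _ _
    have h4 : N - 1 - 2 ^ i < (k + 1) * hh E.δ i := by
      have h5 : N - 1 - 2 ^ i < hh E.δ i * (k + 1) := Nat.lt_mul_div_succ (N - 1 - 2 ^ i) hpos
      rw [mul_comm]
      exact h5
    have hncm := Pool.Agent.W76.MO.nc_mul E.δ hδ i
    have hkn : k < nc E.δ i := by
      have h6 : k * hh E.δ i < nc E.δ i * hh E.δ i := by
        rw [hncm]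
        rw [pow_succ] at h2
        omega
      exact lt_of_mul_lt_mul_right h6 (Nat.zero_le _)
    have hkle : (k + 1) * hh E.δ i ≤ 2 ^ i := by
      rw [← hncm]
      exact Nat.mul_le_mul_right _ hkn
    set A := 2 ^ i + k * hh E.δ i with hA
    have hkk : (k + 1) * hh E.δ i = k * hh E.δ i + hh E.δ i := by ring
    have h0 : SS f A = 0 := by
      have h5 := SS_cells f E.δ i 0 (fun k hk => hcell i k (by omega) hk) k hkn.le
      rw [hblock i hji] at h5
      rw [hA, h5]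
      simp
    have h2i : 2 ^ (i + 1) = 2 ^ i + 2 ^ i := by rw [pow_succ, mul_two]
    have hAN : A ≤ N := by omega
    have hNle : N ≤ 2 ^ (i + 1) := by omega
    have hSN : SS f N = ∑ n ∈ Ioc A N, f n := by rw [SS_add f hAN, h0, zero_add]
    have hsub : Ioc A N ⊆ cell E.δ i k := by
      intro n hn
      rw [mem_Ioc] at hn
      unfold cell
      rw [mem_Ioc]
      omega
    have hloc : ∀ n ∈ cell E.δ i k, 2 ^ i < n ∧ n ≤ 2 ^ (i + 1) := by
      intro n hn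
      unfold cell at hn
      rw [mem_Ioc] at hn
      omega
    -- decomposition
    have hd : ∑ n ∈ Ioc A N, f n = ∑ n ∈ Ioc A N, LP (E.fn V j i z) n +
        ∑ n ∈ Ioc A N, ∑ q ∈ n.primeFactors.filter (fun q : ℕ => (2 : ℝ) ^ (0.7 * (i : ℝ)) < q), E.fr V j i z q * f (n / q) := by
      rw [← sum_add_distrib]
      refine sum_congr rfl fun n hn => ?_
      obtain ⟨h5, h6⟩ := hloc n (hsub hn)
      exact hdec i n z (by omega) h5 h6
    have hi1 : 1 ≤ i := by omega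
    have hnear : |∑ n ∈ Ioc A N, LP (E.fn V j i z) n| ≤ 3 * ww E.δ i := by
      have h5 : |∑ n ∈ Ioc A N, LP (E.fn V j i z) n| ≤ ∑ n ∈ cell E.δ i k, E.AN V j i n := by
        refine (abs_sum_le_sum_abs _ _).trans ?_
        refine le_trans (sum_le_sum_of_subset_of_nonneg hsub fun _ _ _ => abs_nonneg _) ?_
        refine sum_le_sum fun n hn => ?_
        obtain ⟨h5, h6⟩ := hloc n hn
        exact ((hlb z z 0 hz hz (fun x => by simp) n (by omega)).2.2 i).1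
      obtain ⟨h6, h7⟩ := hnk i k (by omega) hkn
      have h8 : ∑ n ∈ cell E.δ i k, E.AN V j i n =
          2 * ∑ n ∈ cell E.δ i k, (E.AN V j i n - LP (aV V) n) / 2 + ∑ n ∈ cell E.δ i k, LP (aV V) n := by
        rw [mul_sum, ← sum_add_distrib]
        refine sum_congr rfl fun n _ => ?_
        ring
      obtain ⟨h9, h10⟩ := WC_le E k hi1
      rw [h8] at h5
      linarith
    have hfar := hts i A N f z (by omega) (by omega) hAN hNle (fun m hm => (hlb z z 0 hz hz (fun x => by simp) m hm).1) hz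
    have h2pos : (0 : ℝ) < 2 := by norm_num
    have htot : |SS f N| ≤ 4 * (2 : ℝ) ^ (-(1 / 2 + E.δ / 2) * (i : ℝ)) := by
      rw [hSN, hd]
      refine (abs_add_le _ _).trans ?_
      have h5 := ww_le E.δ hi1
      have h6 : (2 : ℝ) ^ (-(1 / 2 + 1 / 2000) * (i : ℝ)) ≤ (2 : ℝ) ^ (-(1 / 2 + E.δ / 2) * (i : ℝ)) := by
        apply Real.rpow_le_rpow_of_exponent_le (by norm_num)
        apply mul_le_mul_of_nonneg_right _ (Nat.cast_nonneg _)
        have : (1 : ℝ) / 10 ^ 24 ≤ 1 / 1000 := by norm_num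
        linarith
      linarith
    refine htot.trans ?_
    have hNpos : (0 : ℝ) < N := by
      have : 0 < N := by omega
      exact_mod_cast this
    have h5 : (2 : ℝ) ^ (-(1 / 2 + E.δ / 2) * ((i : ℝ) + 1)) ≤ (N : ℝ) ^ (-(1 / 2 : ℝ) - E.δ / 2) := by
      have h6 : ((2 : ℝ) ^ ((i : ℝ) + 1)) ^ (-(1 / 2 : ℝ) - E.δ / 2) ≤ (N : ℝ) ^ (-(1 / 2 : ℝ) - E.δ / 2) := by
        apply Real.rpow_le_rpow_of_nonpos hNpos
        · have h7 : (N : ℝ) ≤ ((2 ^ (i + 1) : ℕ) : ℝ) := by exact_mod_cast hNle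
          have h8 : ((2 ^ (i + 1) : ℕ) : ℝ) = (2 : ℝ) ^ ((i : ℝ) + 1) := by
            push_cast
            rw [← Real.rpow_natCast 2 (i + 1)]
            congr 1
            push_cast
            ring
          rw [← h8]
          exact h7
        · linarith
      rw [← Real.rpow_mul (by norm_num)] at h6
      have e : ((i : ℝ) + 1) * (-(1 / 2 : ℝ) - E.δ / 2) = -(1 / 2 + E.δ / 2) * ((i : ℝ) + 1) := by ring
      rw [e] at h6
      exact h6
    have h6 : (2 : ℝ) ^ (-(1 / 2 + E.δ / 2) * (i : ℝ)) ≤ 2 * (2 : ℝ) ^ (-(1 / 2 + E.δ / 2) * ((i : ℝ) + 1)) := by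
      have e : (2 : ℝ) * (2 : ℝ) ^ (-(1 / 2 + E.δ / 2) * ((i : ℝ) + 1)) =
          (2 : ℝ) ^ (1 + -(1 / 2 + E.δ / 2) * ((i : ℝ) + 1)) := by
        rw [Real.rpow_add h2pos, Real.rpow_one]
      rw [e]
      apply Real.rpow_le_rpow_of_exponent_le (by norm_num)
      have : (1 : ℝ) / 10 ^ 24 ≤ 1 / 1000 := by norm_num
      linarith
    linarith
  -- all N
  set M : ℝ := ∑ n ∈ Icc 1 (2 ^ (j + 1)), |f n| with hM
  have hM0 : 0 ≤ M := sum_nonneg fun _ _ => abs_nonneg _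
  refine ⟨8 + M * ((2 ^ (j + 1) : ℕ) : ℝ) ^ (1 / 2 + E.δ / 2), by positivity, fun N hN => ?_⟩
  have hN0 : (0 : ℝ) < N := by exact_mod_cast hN
  have h6 : 0 < (N : ℝ) ^ (-(1 / 2 : ℝ) - E.δ / 2) := by positivity
  have h7 : 0 ≤ M * ((2 ^ (j + 1) : ℕ) : ℝ) ^ (1 / 2 + E.δ / 2) := by positivity
  rcases Nat.lt_or_ge (2 ^ (j + 1)) N with h1 | h1
  · have h2 := hlarge N h1
    unfold SS at h2
    nlinarith
  · have h2 : |∑ n ∈ Icc 1 N, f n| ≤ M := by
      refine (abs_sum_le_sum_abs _ _).trans ?_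
      exact sum_le_sum_of_subset_of_nonneg (Icc_subset_Icc_right h1) fun _ _ _ => abs_nonneg _
    have h3 : 1 ≤ ((2 ^ (j + 1) : ℕ) : ℝ) ^ (1 / 2 + E.δ / 2) * (N : ℝ) ^ (-(1 / 2 : ℝ) - E.δ / 2) := by
      have h4 : (N : ℝ) ^ (1 / 2 + E.δ / 2) ≤ ((2 ^ (j + 1) : ℕ) : ℝ) ^ (1 / 2 + E.δ / 2) := by
        apply Real.rpow_le_rpow hN0.le (by exact_mod_cast h1)
        positivity
      have h5 : (N : ℝ) ^ (1 / 2 + E.δ / 2) * (N : ℝ) ^ (-(1 / 2 : ℝ) - E.δ / 2) = 1 := by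
        rw [← Real.rpow_add hN0]
        have : (1 / 2 + E.δ / 2) + (-(1 / 2 : ℝ) - E.δ / 2) = 0 := by ring
        rw [this, Real.rpow_zero]
      have h7 := mul_le_mul_of_nonneg_right h4 h6.le
      rw [h5] at h7
      exact h7
    calc |∑ n ∈ Icc 1 N, f n| ≤ M * 1 := by rw [mul_one]; exact h2
      _ ≤ M * (((2 ^ (j + 1) : ℕ) : ℝ) ^ (1 / 2 + E.δ / 2) * (N : ℝ) ^ (-(1 / 2 : ℝ) - E.δ / 2)) :=
          mul_le_mul_of_nonneg_left h3 hM0
      _ ≤ (8 + M * ((2 ^ (j + 1) : ℕ) : ℝ) ^ (1 / 2 + E.δ / 2)) * (N : ℝ) ^ (-(1 / 2 : ℝ) - E.δ / 2) := by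
          nlinarith

end Pool.Agent.Q240.KZ
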