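import Pool.Agent.Y835.SB.Lin2
import Pool.Agent.W76.MO.Defs

/-!
# Project KZ (helper18), job SI (helper240): squarefree rough numbers in short intervals
-/

set_option autoImplicit false

namespace Pool.Agent.Q240.KZ

open Finset Filter Topology
open scoped Classical
open Pool.Agent.W76.MO (hh nc cell lp Rough)

/-- multiples in an interval -/
lemma card_mult (a h d : ℕ) (hd : 0 < d) : (((Ioc a (a + h)).filter (fun n => d ∣ n)).card : ℝ) ≤ (h : ℝ) / d + 1 := by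
  have h1 : ((Ioc a (a + h)).filter (fun n => d ∣ n)).card ≤ (Ioc (a / d) ((a + h) / d)).card := by
    apply Finset.card_le_card_of_injOn (fun n => n / d)
    · intro n hn
      rw [Finset.mem_coe, mem_filter, mem_Ioc] at hn
      rw [Finset.mem_coe, mem_Ioc]
      obtain ⟨⟨h2, h3⟩, c, rfl⟩ := hn
      simp only [Nat.mul_div_cancel_left c hd]
      refine ⟨?_, ?_⟩
      · rw [Nat.div_lt_iff_lt_mul hd, mul_comm]
        exact h2
      · rw [Nat.le_div_iff_mul_le hd, mul_comm]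
        exact h3
    · intro m hm n hn hmn
      rw [Finset.mem_coe, mem_filter] at hm hn
      obtain ⟨-, c, rfl⟩ := hm
      obtain ⟨-, c', rfl⟩ := hn
      simp only [Nat.mul_div_cancel_left _ hd] at hmn
      rw [hmn]
  rw [Nat.card_Ioc] at h1
  have h2 : (a + h) / d ≤ h / d + 1 + a / d := by
    have h3 : (a + h) / d < h / d + 1 + a / d + 1 := by
      rw [Nat.div_lt_iff_lt_mul hd]
      have h4 := Nat.lt_mul_div_succ a hd
      have h5 := Nat.lt_mul_div_succ h hd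
      nlinarith
    exact Nat.lt_succ_iff.1 h3
  have h3 : ((Ioc a (a + h)).filter (fun n => d ∣ n)).card ≤ h / d + 1 := h1.trans (Nat.sub_le_iff_le_add.2 h2)
  have h4 : (((Ioc a (a + h)).filter (fun n => d ∣ n)).card : ℝ) ≤ ((h / d : ℕ) : ℝ) + 1 := by exact_mod_cast h3
  have h5 : ((h / d : ℕ) : ℝ) ≤ (h : ℝ) / d := Nat.cast_div_le
  linarith

/-- at most one square -/
lemma card_sq (a h x : ℕ) (hx : x ^ 2 ≤ a) (hh : h ≤ 2 * x) : ((Ioc a (a + h)).filter (fun n => ∃ p : ℕ, n = p ^ 2)).card ≤ 1 := by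
  rw [Finset.card_le_one]
  have key : ∀ p q : ℕ, a < p ^ 2 → q ^ 2 ≤ a + h → ¬ p < q := by
    intro p q h1 h2 h3
    have h4 : x < p := lt_of_pow_lt_pow_left₀ 2 (Nat.zero_le _) (lt_of_le_of_lt hx h1)
    have h5 : (p + 1) ^ 2 ≤ q ^ 2 := Nat.pow_le_pow_left h3 2
    nlinarith
  intro m hm n hn
  rw [mem_filter, mem_Ioc] at hm hn
  obtain ⟨⟨h1, h2⟩, p, rfl⟩ := hm
  obtain ⟨⟨h3, h4⟩, q, rfl⟩ := hn
  have h5 := key p q h1 h4
  have h6 := key q p h3 h2
  have : p = q := by omega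
  rw [this]

/-- tails of the series of the inverse squares -/
lemma tail_sq (J N : ℕ) (hJ : 1 ≤ J) : ∑ j ∈ Ico J N, 1 / (j : ℝ) ^ 2 ≤ 2 / (J : ℝ) := by
  have hJ0 : (0 : ℝ) < J := by exact_mod_cast hJ
  have hJ1 : (1 : ℝ) ≤ J := by exact_mod_cast hJ
  have key : ∀ N, J ≤ N → ∑ j ∈ Ico J N, 1 / (j : ℝ) ^ 2 ≤ 1 / ((J : ℝ) - 1 / 2) - 1 / ((N : ℝ) - 1 / 2) := by
    intro N hN
    induction N, hN using Nat.le_induction with
    | base => simp
    | succ N hN ih =>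
      rw [Finset.sum_Ico_succ_top hN]
      have hN1 : (1 : ℝ) ≤ N := by exact_mod_cast (hJ.trans hN)
      have h2 : 1 / (N : ℝ) ^ 2 ≤ 1 / ((N : ℝ) - 1 / 2) - 1 / (((N + 1 : ℕ) : ℝ) - 1 / 2) := by
        push_cast
        rw [div_sub_div _ _ (by linarith) (by linarith), div_le_div_iff₀ (by positivity) (by nlinarith)]
        nlinarith
      linarith
  have h2 : 1 / ((J : ℝ) - 1 / 2) ≤ 2 / (J : ℝ) := by
    rw [div_le_div_iff₀ (by linarith) hJ0]; linarith
  rcases le_total J N with h | h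
  · have h3 := key N h
    have hN1 : (1 : ℝ) ≤ N := by exact_mod_cast (hJ.trans h)
    have h4 : 0 ≤ 1 / ((N : ℝ) - 1 / 2) := div_nonneg zero_le_one (by linarith)
    linarith
  · rw [Finset.Ico_eq_empty (by omega), Finset.sum_empty]; positivity

/-- rough numbers which are not squarefree -/
lemma card_nsf (i a h : ℕ) (ha : 2 ^ i ≤ a) (ha2 : a + h ≤ 2 ^ (i + 2)) (hh : (h : ℝ) ≤ (2 : ℝ) ^ ((i : ℝ) / 2))
    (hi : 200 ≤ i) :
    (((Ioc a (a + h)).filter (fun n => ¬ Squarefree n ∧ Rough ((2 : ℝ) ^ (0.24 * (i : ℝ))) n)).card : ℝ) ≤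
      2 * h * (2 : ℝ) ^ (-(0.24 * (i : ℝ))) + (2 : ℝ) ^ (0.39 * (i : ℝ)) + 1 := by
  have hi' : (200 : ℝ) ≤ i := by exact_mod_cast hi
  set z : ℝ := (2 : ℝ) ^ (0.24 * (i : ℝ)) with hz
  have hz0 : 0 < z := by positivity
  have hz1 : 1 ≤ z := Real.one_le_rpow (by norm_num) (by positivity)
  set P : ℕ := ⌈z⌉₊ with hP
  set Q : ℕ := ⌊(2 : ℝ) ^ (0.39 * (i : ℝ))⌋₊ with hQ
  have hP1 : 1 ≤ P := by rw [hP, Nat.one_le_ceil_iff]; exact hz0
  have hPz : z ≤ P := Nat.le_ceil _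
  have hQz : (Q : ℝ) ≤ (2 : ℝ) ^ (0.39 * (i : ℝ)) := Nat.floor_le (by positivity)
  have hsub : (Ioc a (a + h)).filter (fun n => ¬ Squarefree n ∧ Rough z n) ⊆
      ((Icc P Q).biUnion fun p => (Ioc a (a + h)).filter (fun n => p ^ 2 ∣ n)) ∪
        (Ioc a (a + h)).filter (fun n => ∃ p : ℕ, n = p ^ 2) := by
    intro n hn
    rw [mem_filter] at hn
    obtain ⟨hn1, hn2, hn3⟩ := hn
    have hn1' := mem_Ioc.1 hn1
    rw [Nat.squarefree_iff_prime_squarefree] at hn2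
    push Not at hn2
    obtain ⟨p, hp, hpn⟩ := hn2
    have hp2 : p ^ 2 ∣ n := by rw [pow_two]; exact hpn
    have hzp : z ≤ p := hn3 p hp ((Dvd.intro _ rfl).trans hpn)
    rw [mem_union, mem_biUnion]
    by_cases hpQ : p ≤ Q
    · left
      refine ⟨p, mem_Icc.2 ⟨Nat.ceil_le.2 hzp, hpQ⟩, ?_⟩
      rw [mem_filter]
      exact ⟨hn1, hp2⟩
    · right
      rw [mem_filter]
      refine ⟨hn1, p, ?_⟩
      push Not at hpQ
      obtain ⟨m, hm⟩ := hp2
      have hm1 : m = 1 := by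
        by_contra hne
        have hm0 : m ≠ 0 := by
          rintro rfl
          rw [mul_zero] at hm
          omega
        obtain ⟨r, hr, hrm⟩ := Nat.exists_prime_and_dvd hne
        have h1 : z ≤ r := hn3 r hr (hm ▸ Dvd.dvd.mul_left hrm _)
        have h2 : (r : ℝ) ≤ m := by exact_mod_cast Nat.le_of_dvd (by omega) hrm
        have h3 : (2 : ℝ) ^ (0.39 * (i : ℝ)) ≤ p := by
          have : (2 : ℝ) ^ (0.39 * (i : ℝ)) < (Q : ℝ) + 1 := Nat.lt_floor_add_one _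
          have h4 : ((Q + 1 : ℕ) : ℝ) ≤ p := by exact_mod_cast hpQ
          push_cast at h4
          linarith
        have h4 : ((2 : ℝ) ^ (0.39 * (i : ℝ))) ^ 2 * z ≤ (n : ℝ) := by
          rw [hm]
          push_cast
          apply mul_le_mul _ (h1.trans h2) hz0.le (by positivity)
          exact pow_le_pow_left₀ (by positivity) h3 2
        have h5 : (n : ℝ) ≤ (2 : ℝ) ^ ((i : ℝ) + 2) := by
          have h6 : n ≤ 2 ^ (i + 2) := hn1'.2.trans ha2
          have h7 : (n : ℝ) ≤ ((2 ^ (i + 2) : ℕ) : ℝ) := by exact_mod_cast h6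
          push_cast at h7
          rw [← Real.rpow_natCast 2 (i + 2)] at h7
          push_cast at h7
          exact h7
        have h6 : ((2 : ℝ) ^ (0.39 * (i : ℝ))) ^ 2 * z = (2 : ℝ) ^ (1.02 * (i : ℝ)) := by
          rw [hz, ← Real.rpow_natCast, ← Real.rpow_mul (by norm_num), ← Real.rpow_add (by norm_num)]
          congr 1
          push_cast
          ring
        rw [h6] at h4
        have h7 := h4.trans h5
        rw [Real.rpow_le_rpow_left_iff (by norm_num)] at h7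
        linarith
      rw [hm, hm1, mul_one]
  have h1 := Finset.card_le_card hsub
  have h2 := (Finset.card_union_le ((Icc P Q).biUnion fun p => (Ioc a (a + h)).filter (fun n => p ^ 2 ∣ n))
    ((Ioc a (a + h)).filter (fun n => ∃ p : ℕ, n = p ^ 2)))
  have h3 : (((Icc P Q).biUnion fun p => (Ioc a (a + h)).filter (fun n => p ^ 2 ∣ n)).card : ℝ) ≤
      2 * h * (2 : ℝ) ^ (-(0.24 * (i : ℝ))) + (2 : ℝ) ^ (0.39 * (i : ℝ)) := by
    have h4 : (((Icc P Q).biUnion fun p => (Ioc a (a + h)).filter (fun n => p ^ 2 ∣ n)).card : ℝ) ≤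
        ∑ p ∈ Icc P Q, (((Ioc a (a + h)).filter (fun n => p ^ 2 ∣ n)).card : ℝ) := by
      exact_mod_cast Finset.card_biUnion_le
    refine h4.trans ?_
    have h5 : ∀ p ∈ Icc P Q, (((Ioc a (a + h)).filter (fun n => p ^ 2 ∣ n)).card : ℝ) ≤ h * (1 / (p : ℝ) ^ 2) + 1 := by
      intro p hp
      have hp1 : 1 ≤ p := hP1.trans (mem_Icc.1 hp).1
      have h6 := card_mult a h (p ^ 2) (by positivity)
      push_cast at h6
      rw [mul_one_div]
      exact h6
    refine (Finset.sum_le_sum h5).trans ?_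
    rw [sum_add_distrib, ← mul_sum, sum_const, nsmul_eq_mul, mul_one]
    have h6 : ∑ p ∈ Icc P Q, 1 / (p : ℝ) ^ 2 ≤ 2 / (P : ℝ) := by
      have h7 := tail_sq P (Q + 1) hP1
      have e : Ico P (Q + 1) = Icc P Q := by
        ext x
        simp only [mem_Ico, mem_Icc]
        omega
      rwa [e] at h7
    have h7 : (2 : ℝ) / (P : ℝ) ≤ 2 * (2 : ℝ) ^ (-(0.24 * (i : ℝ))) := by
      rw [Real.rpow_neg (by norm_num), ← hz, div_eq_mul_inv]
      exact mul_le_mul_of_nonneg_left (inv_anti₀ hz0 hPz) (by norm_num)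
    have h8 : (h : ℝ) * ∑ p ∈ Icc P Q, 1 / (p : ℝ) ^ 2 ≤ h * (2 * (2 : ℝ) ^ (-(0.24 * (i : ℝ)))) :=
      mul_le_mul_of_nonneg_left (h6.trans h7) (Nat.cast_nonneg _)
    have h9 : ((Icc P Q).card : ℝ) ≤ (2 : ℝ) ^ (0.39 * (i : ℝ)) := by
      rw [Nat.card_Icc]
      refine le_trans ?_ hQz
      exact_mod_cast (by omega : Q + 1 - P ≤ Q)
    linarith
  have h4 : ((Ioc a (a + h)).filter (fun n => ∃ p : ℕ, n = p ^ 2)).card ≤ 1 := by
    apply card_sq a h (2 ^ (i / 2))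
    · refine le_trans ?_ ha
      rw [← pow_mul]
      exact Nat.pow_le_pow_right (by norm_num) (by omega)
    · have h5 : (h : ℝ) ≤ ((2 * 2 ^ (i / 2) : ℕ) : ℝ) := by
        refine hh.trans ?_
        push_cast
        rw [← pow_succ', ← Real.rpow_natCast 2 (i / 2 + 1)]
        apply Real.rpow_le_rpow_of_exponent_le (by norm_num)
        have h6 : i ≤ 2 * (i / 2) + 1 := by omega
        have h7 : (i : ℝ) ≤ 2 * ((i / 2 : ℕ) : ℝ) + 1 := by exact_mod_cast h6
        push_cast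
        linarith
      exact_mod_cast h5
  have h5 : (((Ioc a (a + h)).filter (fun n => ¬ Squarefree n ∧ Rough z n)).card : ℝ) ≤
      (((Icc P Q).biUnion fun p => (Ioc a (a + h)).filter (fun n => p ^ 2 ∣ n)).card : ℝ) + 1 := by
    have h6 : ((Ioc a (a + h)).filter (fun n => ¬ Squarefree n ∧ Rough z n)).card ≤
      ((Icc P Q).biUnion fun p => (Ioc a (a + h)).filter (fun n => p ^ 2 ∣ n)).card + 1 := by omega
    exact_mod_cast h6
  linarith

/-- bounds for the length of the cells -/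
lemma hh_bds {δ : ℝ} (hδ : 0 < δ) (hδ' : δ ≤ 1 / 1000) (i : ℕ) :
    (hh δ i : ℝ) ≤ (2 : ℝ) ^ ((i : ℝ) / 2) ∧ (2 : ℝ) ^ (0.499 * (i : ℝ) - 1) ≤ hh δ i := by
  have hi0 : (0 : ℝ) ≤ i := Nat.cast_nonneg _
  unfold hh
  push_cast
  rw [← Real.rpow_natCast 2 _]
  have h0 : 0 ≤ (1 / 2 - δ) * (i : ℝ) := by
    apply mul_nonneg _ hi0
    linarith
  constructor
  · apply Real.rpow_le_rpow_of_exponent_le (by norm_num)
    refine (Nat.floor_le h0).trans ?_
    nlinarith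
  · apply Real.rpow_le_rpow_of_exponent_le (by norm_num)
    have h1 := Nat.lt_floor_add_one ((1 / 2 - δ) * (i : ℝ))
    nlinarith

/-- **KZ-SI** -/
theorem t_SI : ∃ cs δs : ℝ, 0 < cs ∧ 0 < δs ∧ ∀ δ : ℝ, 0 < δ → δ ≤ δs → ∃ i₀ : ℕ, ∀ i : ℕ, i₀ ≤ i →
    ∀ a : ℕ, 2 ^ i ≤ a → a ≤ 2 ^ (i + 1) →
    cs * hh δ i / i ≤ (((Ioc a (a + hh δ i)).filter (fun n => Squarefree n ∧ Rough ((2 : ℝ) ^ (0.24 * (i : ℝ))) n)).card : ℝ) := by
  obtain ⟨c, hc, Y0, hL⟩ := Pool.Agent.Y835.SB.lin_low 0.49 (by norm_num) (by norm_num)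
  refine ⟨c / 2, 1 / 1000, by positivity, by norm_num, ?_⟩
  intro δ hδ hδ'
  -- large i
  have hlim1 : Tendsto (fun i : ℕ => (i : ℝ) * (2 : ℝ) ^ (-(0.1 * (i : ℝ)))) atTop (𝓝 0) := by
    have h1 : Tendsto (fun i : ℕ => (i : ℝ) ^ 1 * ((2 : ℝ) ^ (-(0.1 : ℝ))) ^ i) atTop (𝓝 0) := by
      apply tendsto_pow_const_mul_const_pow_of_abs_lt_one
      rw [abs_of_pos (by positivity)]
      exact Real.rpow_lt_one_of_one_lt_of_neg (by norm_num) (by norm_num)
    refine h1.congr fun i => ?_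
    rw [pow_one, ← Real.rpow_natCast, ← Real.rpow_mul (by norm_num)]
    congr 2
    ring
  have hev : ∀ᶠ i : ℕ in atTop, 1000 ≤ i ∧ (Y0 : ℝ) ≤ (2 : ℝ) ^ (0.499 * (i : ℝ) - 1) ∧
      (i : ℝ) * (2 : ℝ) ^ (-(0.1 * (i : ℝ))) ≤ c / 12 := by
    refine (eventually_ge_atTop 1000).and (Filter.Eventually.and ?_ (hlim1.eventually_le_const (by positivity)))
    filter_upwards [eventually_ge_atTop (4 * Y0 + 4)] with i hi
    have h1 : ((4 * Y0 + 4 : ℕ) : ℝ) ≤ i := by exact_mod_cast hi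
    push_cast at h1
    have h2 : (Y0 : ℝ) < 2 ^ Y0 := by exact_mod_cast Nat.lt_two_pow_self
    refine h2.le.trans ?_
    rw [← Real.rpow_natCast 2 Y0]
    apply Real.rpow_le_rpow_of_exponent_le (by norm_num)
    have : (0 : ℝ) ≤ Y0 := Nat.cast_nonneg _
    linarith
  obtain ⟨i₀, hi₀⟩ := eventually_atTop.1 hev
  refine ⟨i₀, fun i hi a ha ha2 => ?_⟩
  obtain ⟨h1, h2, h3⟩ := hi₀ i hi
  have hi' : (1000 : ℝ) ≤ i := by exact_mod_cast h1
  obtain ⟨hu, hl⟩ := hh_bds hδ hδ' i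
  set h : ℕ := hh δ i with hhd
  have hY : Y0 ≤ h := by
    have : (Y0 : ℝ) ≤ h := h2.trans hl
    exact_mod_cast this
  have hh1 : (1 : ℝ) < h := by
    refine lt_of_lt_of_le ?_ hl
    apply Real.one_lt_rpow (by norm_num)
    linarith
  have hh0 : (0 : ℝ) < h := by linarith
  have h4 := hL h hY a
  -- the logarithm
  have hlogpos : 0 < Real.log h := Real.log_pos hh1
  have hlog : Real.log h ≤ i := by
    have h5 := Real.log_le_log hh0 hu
    rw [Real.log_rpow (by norm_num)] at h5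
    have h6 := Real.log_two_lt_d9
    have h7 := Real.log_two_gt_d9
    nlinarith
  have h5 : c * (h / i) ≤ c * (h / Real.log h) := by
    apply mul_le_mul_of_nonneg_left _ hc.le
    exact div_le_div_of_nonneg_left hh0.le hlogpos hlog
  -- transfer to the interval
  have h6 : (((Icc 1 h).filter (fun h' => ∀ p : ℕ, p.Prime → (p : ℝ) < (h : ℝ) ^ (0.49 : ℝ) → ¬ p ∣ a + h')).card : ℝ) ≤
      (((Ioc a (a + h)).filter (fun n => Rough ((2 : ℝ) ^ (0.24 * (i : ℝ))) n)).card : ℝ) := by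
    have h7 : ((Icc 1 h).filter (fun h' => ∀ p : ℕ, p.Prime → (p : ℝ) < (h : ℝ) ^ (0.49 : ℝ) → ¬ p ∣ a + h')).card ≤
        ((Ioc a (a + h)).filter (fun n => Rough ((2 : ℝ) ^ (0.24 * (i : ℝ))) n)).card := by
      apply Finset.card_le_card_of_injOn (fun h' => a + h')
      · intro m hm
        rw [Finset.mem_coe, mem_filter, mem_Icc] at hm
        rw [Finset.mem_coe, mem_filter, mem_Ioc]
        refine ⟨⟨?_, ?_⟩, ?_⟩
        · show a < a + m
          omega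
        · show a + m ≤ a + h
          omega
        intro p hp hd
        by_contra hcon
        push Not at hcon
        refine hm.2 p hp (lt_of_lt_of_le hcon ?_) hd
        have h8 : ((2 : ℝ) ^ (0.499 * (i : ℝ) - 1)) ^ (0.49 : ℝ) ≤ (h : ℝ) ^ (0.49 : ℝ) :=
          Real.rpow_le_rpow (by positivity) hl (by norm_num)
        refine le_trans ?_ h8
        rw [← Real.rpow_mul (by norm_num)]
        apply Real.rpow_le_rpow_of_exponent_le (by norm_num)
        linarith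
      · intro m _ n _ hmn
        have : a + m = a + n := hmn
        omega
    exact_mod_cast h7
  -- squarefree
  have h7 : (((Ioc a (a + h)).filter (fun n => Rough ((2 : ℝ) ^ (0.24 * (i : ℝ))) n)).card : ℝ) =
      (((Ioc a (a + h)).filter (fun n => Squarefree n ∧ Rough ((2 : ℝ) ^ (0.24 * (i : ℝ))) n)).card : ℝ) +
      (((Ioc a (a + h)).filter (fun n => ¬ Squarefree n ∧ Rough ((2 : ℝ) ^ (0.24 * (i : ℝ))) n)).card : ℝ) := by
    rw [← Nat.cast_add]
    congr 1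
    rw [← Finset.card_filter_add_card_filter_not (s := (Ioc a (a + h)).filter (fun n => Rough ((2 : ℝ) ^ (0.24 * (i : ℝ))) n))
      (fun n => Squarefree n), filter_filter, filter_filter]
    congr 2
    · apply filter_congr
      intro n _
      exact and_comm
    · apply filter_congr
      intro n _
      exact and_comm
  have hhle : h ≤ 2 ^ i := by
    have h8 : (h : ℝ) ≤ ((2 ^ i : ℕ) : ℝ) := by
      refine hu.trans ?_
      push_cast
      rw [← Real.rpow_natCast 2 i]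
      apply Real.rpow_le_rpow_of_exponent_le (by norm_num)
      linarith
    exact_mod_cast h8
  have h8 := card_nsf i a h ha (by
    have e1 : 2 ^ (i + 1) = 2 * 2 ^ i := by ring
    have e2 : 2 ^ (i + 2) = 4 * 2 ^ i := by ring
    omega) hu (by omega)
  have hi0 : (0 : ℝ) < i := by linarith
  have h9 : 2 * h * (2 : ℝ) ^ (-(0.24 * (i : ℝ))) + (2 : ℝ) ^ (0.39 * (i : ℝ)) + 1 ≤ c / 2 * (h / i) := by
    have e1 : (i : ℝ) * (2 : ℝ) ^ (-(0.24 * (i : ℝ))) ≤ c / 12 := by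
      refine le_trans ?_ h3
      apply mul_le_mul_of_nonneg_left _ hi0.le
      apply Real.rpow_le_rpow_of_exponent_le (by norm_num)
      linarith
    have e2 : (i : ℝ) * (2 : ℝ) ^ (0.39 * (i : ℝ)) ≤ c / 12 * h := by
      have e3 : (2 : ℝ) ^ (0.39 * (i : ℝ)) ≤ (2 : ℝ) ^ (-(0.1 * (i : ℝ))) * h := by
        calc (2 : ℝ) ^ (0.39 * (i : ℝ)) ≤ (2 : ℝ) ^ (-(0.1 * (i : ℝ)) + (0.499 * (i : ℝ) - 1)) := by
              apply Real.rpow_le_rpow_of_exponent_le (by norm_num)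
              linarith
          _ = (2 : ℝ) ^ (-(0.1 * (i : ℝ))) * (2 : ℝ) ^ (0.499 * (i : ℝ) - 1) := Real.rpow_add (by norm_num) _ _
          _ ≤ _ := mul_le_mul_of_nonneg_left hl (by positivity)
      calc (i : ℝ) * (2 : ℝ) ^ (0.39 * (i : ℝ)) ≤ i * ((2 : ℝ) ^ (-(0.1 * (i : ℝ))) * h) :=
            mul_le_mul_of_nonneg_left e3 hi0.le
        _ = i * (2 : ℝ) ^ (-(0.1 * (i : ℝ))) * h := by ring
        _ ≤ c / 12 * h := mul_le_mul_of_nonneg_right h3 hh0.le
    have e4 : (1 : ℝ) ≤ (2 : ℝ) ^ (0.39 * (i : ℝ)) := Real.one_le_rpow (by norm_num) (by positivity)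
    have e5 : (2 * h * (2 : ℝ) ^ (-(0.24 * (i : ℝ))) + (2 : ℝ) ^ (0.39 * (i : ℝ)) + 1) * i ≤ c / 2 * h := by
      have e6 : 2 * (h : ℝ) * (2 : ℝ) ^ (-(0.24 * (i : ℝ))) * i ≤ 2 * (c / 12) * h := by
        calc 2 * (h : ℝ) * (2 : ℝ) ^ (-(0.24 * (i : ℝ))) * i = 2 * h * (i * (2 : ℝ) ^ (-(0.24 * (i : ℝ)))) := by ring
          _ ≤ 2 * h * (c / 12) := mul_le_mul_of_nonneg_left e1 (by positivity)
          _ = _ := by ring
      have e7 : (1 : ℝ) * i ≤ c / 12 * h := by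
        calc (1 : ℝ) * i ≤ (2 : ℝ) ^ (0.39 * (i : ℝ)) * i := mul_le_mul_of_nonneg_right e4 hi0.le
          _ = i * (2 : ℝ) ^ (0.39 * (i : ℝ)) := by ring
          _ ≤ _ := e2
      have e8 : 0 ≤ c * h := by positivity
      nlinarith
    rw [← mul_div_assoc, le_div_iff₀ hi0]
    exact e5
  have e9 : c / 2 * (h : ℝ) / i = c * (h / i) - c / 2 * (h / i) := by ring
  rw [e9]
  linarith

end Pool.Agent.Q240.KZ
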