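import Pool.Agent.Q18.KZ.S4
import Pool.Agent.Q240.KZ.SI

/-! KZ-SI in the form of the statement file. -/

namespace Pool.Agent.Q240.KZ

theorem si : Pool.Agent.Q18.KZ.S_SI := by
  obtain ⟨cs, δs, h1, h2, h3⟩ := t_SI
  refine ⟨cs, δs, h1, h2, fun δ hδ hδ' => ?_⟩
  obtain ⟨i₀, h4⟩ := h3 δ hδ hδ'
  exact ⟨i₀, fun i a hi ha ha' => h4 i hi a ha ha'⟩

end Pool.Agent.Q240.KZ
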