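import Pool.Agent.Q14.KZ.SM
import Pool.Agent.Q241.KZ.RAD
import Pool.Agent.Q14.KZ.LSW
import Pool.Agent.Q182.KZ.MO
import Pool.Agent.Q237.KZ.AN
import Pool.Agent.Q237.KZ.RC1
import Pool.Agent.Q237.KZ.RC
import Pool.Agent.Q241.KZ.LN
import Pool.Agent.Q256.KZ.RCL
import Pool.Agent.Q256.KZ.RCS
import Pool.Agent.Q256.KZ.RCH
import Pool.Agent.Q25.KZ.PS
import Pool.Agent.Q25.KZ.MOM
import Pool.Agent.Q124.KZ.Tails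
import Pool.Agent.Q124.KZ.Chl
import Pool.Agent.Q222.KZ.FF
import Pool.Agent.Q222.KZ.PW
import Pool.Agent.Q222.KZ.F1
import Pool.Agent.Q222.KZ.F2
import Pool.Agent.Q222.KZ.F3
import Pool.Agent.Q222.KZ.WC
import Pool.Agent.Q190.KZ.LC
import Pool.Agent.Q190.KZ.XE
import Pool.Agent.Q190.KZ.XO1
import Pool.Agent.Q190.KZ.LPA
import Pool.Agent.Q190.KZ.DT
import Pool.Agent.Q151.KZ.XS
import Pool.Agent.Q265.KZ.XR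
import Pool.Agent.Q265.KZ.XZ
import Pool.Agent.Q265.KZ.XM
import Pool.Agent.Q153.KZ.XO2
import Pool.Agent.Q68.KZ.XG
import Pool.Agent.Q68.KZ.XH
import Pool.Agent.Q68.KZ.XT
import Pool.Agent.Q36.KZ.HNP
import Pool.Agent.Q36.KZ.HDP
import Pool.Agent.Q241.KZ.EX

/-! Kahane-Saias, project KZ: assembly of the probabilistic part (statement files S1, S2). -/

set_option autoImplicit false

namespace Pool.Agent.Q240.KZ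

open Pool.Agent.Q18.KZ

theorem e_FF : S_FF := Pool.Agent.Q222.KZ.t_FF
theorem e_RC : S_RC :=
  Pool.Agent.Q237.KZ.t_RC Pool.Agent.Q241.KZ.t_RAD
    (Pool.Agent.Q237.KZ.t_RC1 (Pool.Agent.Q237.KZ.t_AN (Pool.Agent.Q182.KZ.t_MO Pool.Agent.Q14.KZ.t_LSW)) Pool.Agent.Q241.KZ.t_RAD)
theorem e_RCL : S_RCL := Pool.Agent.Q256.KZ.t_RCL e_RC Pool.Agent.Q241.KZ.t_LN
theorem e_RCS : S_RCS := Pool.Agent.Q256.KZ.t_RCS e_RCL Pool.Agent.Q241.KZ.t_LN Pool.Agent.Q241.KZ.t_RAD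
theorem e_TB : S_TB := Pool.Agent.Q124.KZ.t_TB Pool.Agent.Q25.KZ.t_MOM
theorem e_TC : S_TC := Pool.Agent.Q124.KZ.t_TC Pool.Agent.Q25.KZ.t_MOM
theorem e_F1 : S_F1 := Pool.Agent.Q222.KZ.t_F1 e_FF
theorem e_F2 : S_F2 := Pool.Agent.Q222.KZ.t_F2 e_FF
theorem e_F3 : S_F3 := Pool.Agent.Q222.KZ.t_F3 e_FF
theorem e_WC : S_WC := Pool.Agent.Q222.KZ.t_WC e_RCL
theorem e_HNP : S_HNP := Q36.KZ.t_HNP e_FF Pool.Agent.Q222.KZ.t_PW e_F1 e_F2 e_WC e_RCL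
theorem e_HDP : S_HDP := Q36.KZ.t_HDP e_FF Pool.Agent.Q222.KZ.t_PW e_F3 e_WC

theorem e_EX : S_EX :=
  Pool.Agent.Q241.KZ.t_EX Pool.Agent.Q25.KZ.t_PS Pool.Agent.Q151.KZ.t_XS Pool.Agent.Q190.KZ.t_XE
    (Pool.Agent.Q265.KZ.t_XR e_TB Pool.Agent.Q222.KZ.t_PW e_RCS) (Pool.Agent.Q265.KZ.t_XL e_TB Pool.Agent.Q222.KZ.t_PW e_RCS)
    (Pool.Agent.Q265.KZ.t_XZ e_TB e_FF e_F1) (Pool.Agent.Q265.KZ.t_XM Pool.Agent.Q25.KZ.t_MOM e_FF)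
    (Pool.Agent.Q190.KZ.t_XO1 Pool.Agent.Q124.KZ.t_CHL) (Pool.Agent.Q153.KZ.t_XO2 Pool.Agent.Q14.KZ.t_SM e_FF)
    (Pool.Agent.Q68.KZ.t_XG1 e_TC e_FF) (Pool.Agent.Q68.KZ.t_XG2 e_TC e_FF)
    (Pool.Agent.Q68.KZ.t_XHN e_TB e_FF e_HNP) (Pool.Agent.Q68.KZ.t_XHD e_TB e_FF e_HDP)
    (Pool.Agent.Q68.KZ.t_XT e_TB Pool.Agent.Q222.KZ.t_PW Pool.Agent.Q190.KZ.t_LC Pool.Agent.Q256.KZ.t_RCH)

end Pool.Agent.Q240.KZ
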