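import Pool.Agent.Q240.KZ.Asm
import Pool.Agent.Q238.KZ.DG
import Pool.Agent.Q184.KZ.DM
import Pool.Agent.Q63.KZ.DU
import Pool.Agent.Q63.KZ.DE
import Pool.Agent.Q63.KZ.DS
import Pool.Agent.Q63.KZ.DEC
import Pool.Agent.Q63.KZ.HPa
import Pool.Agent.Q63.KZ.HP
import Pool.Agent.Q298.KZ.UP
import Pool.Agent.Q298.KZ.TS
import Pool.Agent.Q298.KZ.LM
import Pool.Agent.Q298.KZ.FX
import Pool.Agent.Q39.KZ.SP
import Pool.Agent.Q39.KZ.SPC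
import Pool.Agent.Q39.KZ.SPD
import Pool.Agent.Q39.KZ.PU
import Pool.Agent.Q153.KZ.SPB
import Pool.Agent.Q102.KZ.NK
import Pool.Agent.Q102.KZ.LB
import Pool.Agent.Q240.KZ.Cons
import Pool.Agent.Q241.KZ.FIN
import Pool.Agent.Q240.KZ.SIw
import Pool.Agent.Q151.KZ.CHE
import Pool.Agent.Q151.KZ.PAIR
import Pool.Agent.Q151.KZ.CNT
import Pool.Agent.Q151.KZ.HVY
import Pool.Agent.Q198.KZ.POR
import Pool.Agent.Q285.KZ.BAD0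
import Pool.Agent.Q24.KZ.BLK
import Pool.Agent.Q241.KZ.BLC
import Pool.Agent.Q177.KZ.PRT
import Pool.Agent.Q177.KZ.END
import Pool.Agent.Q278.KT.Fin
import Pool.Agent.Q238.KZ.HPb
import Pool.Agent.Q198.KZ.US
import Pool.Agent.Q208.KZ.ENV

/-! Kahane-Saias, project KZ: assembly, with the three open statements as hypotheses. -/

set_option autoImplicit false

namespace Pool.Agent.Q240.KZ

open Pool.Agent.Q18.KZ Filter Topology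

theorem e_DG : S_DG := Pool.Agent.Q238.KZ.t_DG Pool.Agent.Q190.KZ.t_DT e_FF
theorem e_DM : S_DM := Pool.Agent.Q184.KZ.t_DM Pool.Agent.Q190.KZ.t_DT e_FF
theorem e_DE : S_DE := Pool.Agent.Q63.KZ.t_DE Pool.Agent.Q190.KZ.t_LPE e_DG e_DM Pool.Agent.Q63.KZ.t_DU
theorem e_DSV : S_DSV := Pool.Agent.Q63.KZ.t_DSV Pool.Agent.Q190.KZ.t_LPA e_DG
theorem e_DA : S_DA := Pool.Agent.Q63.KZ.t_DA e_DG e_FF
theorem e_UP : S_UP := Pool.Agent.Q298.KZ.t_UP e_DE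
theorem e_HPa : S_HPa := Pool.Agent.Q63.KZ.t_HPa Pool.Agent.Q190.KZ.t_DT e_DSV e_FF
theorem e_HP (h : S_HPb) : S_HP := Pool.Agent.Q63.KZ.t_HP Pool.Agent.Q190.KZ.t_DT e_DA e_FF e_HPa h
theorem e_SP : S_SP := Pool.Agent.Q39.KZ.t_SP Pool.Agent.Q190.KZ.t_LPA e_DG
  (Pool.Agent.Q153.KZ.t_SPB Pool.Agent.Q190.KZ.t_LPA Pool.Agent.Q190.KZ.t_LPE e_DG e_DM) (Pool.Agent.Q39.KZ.t_SPC e_DG)
  (Pool.Agent.Q39.KZ.t_SPD (Pool.Agent.Q39.KZ.t_PU e_DG) Pool.Agent.Q190.KZ.t_LPE e_DG e_DM)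
theorem e_NK (h : S_HPb) : S_NK := Pool.Agent.Q102.KZ.t_NK Pool.Agent.Q190.KZ.t_SPL e_UP (e_HP h) e_SP
theorem e_TS : S_TS := Pool.Agent.Q298.KZ.t_TS e_DSV e_FF
theorem e_DEC : S_DEC := Pool.Agent.Q63.KZ.t_DEC e_FF
theorem e_LM : S_LM := Pool.Agent.Q298.KZ.t_LM e_FF Pool.Agent.Q102.KZ.t_LB
theorem e_FX (h : S_HPb) : S_FX := Pool.Agent.Q298.KZ.t_FX e_DE (e_NK h) e_TS e_DEC Pool.Agent.Q102.KZ.t_LB e_LM
theorem e_CON (h : S_HPb) : S_CON := t_CON (e_NK h) e_TS e_DEC Pool.Agent.Q102.KZ.t_LB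
theorem e_FIN (h : S_HPb) : S_FIN := Pool.Agent.Q241.KZ.t_FIN e_EX (e_FX h) (e_CON h)
theorem e_CNT : S_CNT := Pool.Agent.Q151.KZ.t_CNT Pool.Agent.Q151.KZ.t_PAIR
theorem e_HVY : S_HVY := Pool.Agent.Q151.KZ.t_HVY Pool.Agent.Q151.KZ.t_PAIR
theorem e_PRT : S_PRT := Pool.Agent.Q177.KZ.t_PRT Pool.Agent.Q241.KZ.t_BLC
theorem e_END (h : S_HPb) (hE : S_ENV) : S_END := Pool.Agent.Q177.KZ.t_END (e_FIN h) hE

theorem e_HPb : S_HPb := Pool.Agent.Q238.KZ.t_HPb Pool.Agent.Q190.KZ.t_DT e_DA e_DE e_FF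
theorem e_US : S_US := Pool.Agent.Q198.KZ.t_US Pool.Agent.Q151.KZ.t_CHE e_CNT e_HVY Pool.Agent.Q198.KZ.t_POR
theorem e_ENV : S_ENV := Pool.Agent.Q208.KZ.t_ENV si e_US Pool.Agent.Q285.KZ.t_BAD0 Pool.Agent.Q24.KZ.t_BLK
  Pool.Agent.Q241.KZ.t_BLC e_PRT

/-- the frozen negation -/
theorem e_neg :
    ¬ (∀ f : ℕ → ℂ,
      f 1 = 1 →
      (∀ m n : ℕ, 0 < m → 0 < n → f (m * n) = f m * f n) →
      Tendsto (fun N : ℕ => ∑ n ∈ Finset.range N, f (n + 1)) atTop (𝓝 0) →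
      ∃ c : ℝ, 0 < c ∧ ∀ M : ℕ, ∃ N : ℕ, M ≤ N ∧ 0 < N ∧
        c / Real.sqrt (N : ℝ) ≤ ‖∑ n ∈ Finset.Icc 1 N, f n‖) :=
  e_END e_HPb e_ENV Pool.Agent.Q278.KT.mainp_half Pool.Agent.Q278.KT.mainp_043 Pool.Agent.Q278.KT.mainp_1316

end Pool.Agent.Q240.KZ
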